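import Pool.Agent.Lib.SmH.Defs
import Pool.Agent.Lib.SmH.H.FaceR

/-!
HEIGHTS (MP_48b749_nt), block TopR: the rigid pairing `CTr` over a cube.

`y X` is a rigid Selmer element of level `j` at the vertex `X`, and at the bad places the point
`(y X).2 v` does not depend on `X`; `b` is an affine family in the relaxed Selmer group.

* `zero_sum_CTr` (rigid H3), `value_const_CTr` (rigid H6, transport to the last vertex);
* `z3_CTr` (Z3); `top_sum_CTr` (rigid H4).
-/

set_option autoImplicit false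

open Finset

namespace Pool.Agent.SmH

open Pool.Agent.SmJ

section

variable {G V V1 Pl I : Type*} [Group G] [AddCommGroup V] [DistribMulAction G V] [DecidableEq I]
  [AddCommGroup V1] [Module (ZMod 2) V1]
variable {S : Sys G V V1 Pl}

/-! ### The value of `CTr` -/

/-- Rigid lifts exist, with prescribed halves at the bad places. -/
theorem exists_rlift (hS : S.Ok) {chi : G → ZMod 2} (hchi : S.HomG chi) {i : ℕ}
    {y : (G → V) × (Pl → V)} (hy : IsPr S chi i y) (hf : Pl → V)
    (hhf : ∀ v, v ∉ S.good → (2 : ℕ) • hf v = y.2 v) :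
    ∃ hat Q, RLift S chi y hat Q ∧ ∀ v, v ∉ S.good → Q v = hf v := by
  classical
  obtain ⟨hat, Q, hd⟩ := Sys.exists_liftData hS hchi hy.sel
  refine ⟨hat, fun v => if v ∈ S.good then Q v else hf v, ⟨⟨hd.tf, hd.coc, hd.two, ?_⟩, ?_⟩, ?_⟩
  · intro v s hs
    by_cases hv : v ∈ S.good
    · simp only [if_pos hv]
      exact hd.loc v s hs
    · simp only [if_neg hv]
      rw [hy.loc v hv s hs, ← hhf v hv, dl_nsmul]
  · intro v hv
    simp only [if_neg hv]
    exact hhf v hv
  · intro v hv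
    simp only [if_neg hv]

/-- The value of the sum does not depend on the rigid lift. -/
theorem rlift_indep (hS : S.Ok) {chi : G → ZMod 2} (hchi : S.HomG chi)
    {y : (G → V) × (Pl → V)} {hat hat' : G → V} {Q Q' : Pl → V} (hd : RLift S chi y hat Q)
    (hd' : RLift S chi y hat' Q') {b : G → V1} (hb : IsRel S chi b) :
    ∑ᶠ v, S.sy v (S.xi chi hat Q v) (S.loc v b) =
      ∑ᶠ v, S.sy v (S.xi chi hat' Q' v) (S.loc v b) := by
  obtain ⟨hd, hr⟩ := hd
  obtain ⟨hd', hr'⟩ := hd'
  -- the global difference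
  have h2 : ∀ s, (2 : ℕ) • (hat s - hat' s) = 0 := fun s => by
    rw [smul_sub, hd.two, hd'.two, sub_self]
  set a : G → V1 := fun s => S.un (hat s - hat' s) with ha
  have hia : ∀ s, S.iota (a s) = hat s - hat' s := fun s => Sys.iota_un hS (h2 s)
  have haH : S.HomG a := by
    refine ⟨(Sys.TF.comp₂ hS hd.tf hd'.tf (fun x y => S.un (x - y))), fun s t => hS.iota_inj ?_⟩
    rw [map_add, hia, hia, hia, hd.coc, hd'.coc, ← Sys.tw_of_two hS chi s (h2 t), tw_sub]
    abel
  -- the local difference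
  have h3 : ∀ v, ∀ s ∈ S.D v, (2 : ℕ) • dl chi (Q v - Q' v) s = 0 := fun v s hs => by
    rw [dl_sub, smul_sub, ← hd.loc v s hs, ← hd'.loc v s hs, sub_self]
  have key : ∀ v, S.sy v (S.xi chi hat Q v) (S.loc v b) =
      S.sy v (S.xi chi hat' Q' v) (S.loc v b) + S.sy v (S.loc v a) (S.loc v b) := by
    intro v
    set x : V1 × V1 := (S.un (dl chi (Q v - Q' v) (S.sg v)), S.un (dl chi (Q v - Q' v) (S.phi v)))
      with hx
    have hx0 : S.sy v x (S.loc v b) = 0 := by
      by_cases hv : v ∈ S.good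
      · have hxW : x ∈ S.Wl chi v := ⟨Q v - Q' v, h3 v, (Sys.iota_un hS (h3 v _ (hS.sg_mem v))).symm,
          (Sys.iota_un hS (h3 v _ (hS.phi_mem v))).symm⟩
        exact hS.isot chi hchi v x hxW _ (hb.2 v hv)
      · have h4 : (2 : ℕ) • (Q v - Q' v) = 0 := by
          rw [smul_sub, hr v hv, hr' v hv, sub_self]
        have hx0 : x = 0 := by
          rw [hx, Sys.dl_of_two hS chi _ h4, Sys.dl_of_two hS chi _ h4, Sys.un_zero hS]
          rfl
        rw [hx0, Sys.sy_zero_left]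
    have e : S.xi chi hat Q v + x = S.xi chi hat' Q' v + S.loc v a := by
      refine Prod.ext (hS.iota_inj ?_) (hS.iota_inj ?_)
      · rw [Prod.fst_add, Prod.fst_add, map_add, map_add, hd.iota_xi1 hS, hd'.iota_xi1 hS]
        change _ + S.iota (S.un _) = _ + S.iota (a (S.sg v))
        rw [hia, Sys.iota_un hS (h3 v _ (hS.sg_mem v)), dl_sub]
        abel
      · rw [Prod.snd_add, Prod.snd_add, map_add, map_add, hd.iota_xi2 hS, hd'.iota_xi2 hS]
        change _ + S.iota (S.un _) = _ + S.iota (a (S.phi v))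
        rw [hia, Sys.iota_un hS (h3 v _ (hS.phi_mem v)), dl_sub]
        abel
    rw [← Sys.sy_add_left, ← e, Sys.sy_add_left, hx0, add_zero]
  rw [finsum_congr key, finsum_add_distrib (hd'.supp hS hchi hb.1) (Sys.sy_supp hS haH hb.1),
    hS.recip a b haH hb.1, add_zero]

/-- The rigid pairing can be computed with any rigid lift. -/
theorem CTr_of_rlift (hS : S.Ok) {chi : G → ZMod 2} (hchi : S.HomG chi)
    {y : (G → V) × (Pl → V)} {hat : G → V} {Q : Pl → V} (hd : RLift S chi y hat Q)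
    {b : G → V1} (hb : IsRel S chi b) :
    CTr S chi y b = ∑ᶠ v, S.sy v (S.xi chi hat Q v) (S.loc v b) := by
  have hex : ∃ p : (G → V) × (Pl → V), RLift S chi y p.1 p.2 := ⟨(hat, Q), hd⟩
  rw [CTr, dif_pos hex]
  exact rlift_indep hS hchi hex.choose_spec hd hb

/-! ### Cubes -/

variable {chi0 : G → ZMod 2} {del : I → G → ZMod 2} {j : ℕ} {W : Finset I}
  {y : Finset I → (G → V) × (Pl → V)}

/-- Rigid lifts for all the vertices of a cube, with the same halves at the bad places. -/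
theorem exists_rfamily (hS : S.Ok) (h0 : S.HomG chi0) (hdel : ∀ i, S.HomG (del i))
    (hy : ∀ X, X ⊆ W → IsPr S (chiC chi0 del X) j (y X))
    (hbad : ∀ v, v ∉ S.good → ∀ X, X ⊆ W → ∀ X', X' ⊆ W → (y X).2 v = (y X').2 v) :
    ∃ (hat : Finset I → G → V) (Q : Finset I → Pl → V),
      (∀ X, X ⊆ W → RLift S (chiC chi0 del X) (y X) (hat X) (Q X)) ∧
      ∀ v, v ∉ S.good → ∀ X, X ⊆ W → ∀ X', X' ⊆ W → Q X v = Q X' v := by
  obtain ⟨hf, hhf⟩ := Sys.exists_hf hS
  have h : ∀ X, ∃ (hat : G → V) (Q : Pl → V), X ⊆ W →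
      (RLift S (chiC chi0 del X) (y X) hat Q ∧ ∀ v, v ∉ S.good → Q v = hf ((y ∅).2 v)) := by
    intro X
    by_cases hX : X ⊆ W
    · obtain ⟨hat, Q, h1, h2⟩ := exists_rlift hS (chiC_hom hS h0 hdel X) (hy X hX)
        (fun v => hf ((y ∅).2 v)) (fun v hv => by
          rw [hhf]
          exact hbad v hv ∅ (Finset.empty_subset W) X hX)
      exact ⟨hat, Q, fun _ => ⟨h1, h2⟩⟩
    · exact ⟨0, 0, fun h => absurd h hX⟩
  choose hat Q h using h
  exact ⟨hat, Q, fun X hX => (h X hX).1, fun v hv X hX X' hX' => by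
    rw [(h X hX).2 v hv, (h X' hX').2 v hv]⟩

/-- Rigid H3: the zero sum theorem for faces of dimension `j + 3` (or more). -/
theorem zero_sum_CTr (hS : S.Ok) {pl : I → Bool → Pl} (hC : CubeOk S chi0 del pl)
    (hst : Star W j (fun X => (y X).1))
    (hy : ∀ X, X ⊆ W → IsPr S (chiC chi0 del X) j (y X))
    (hbad : ∀ v, v ∉ S.good → ∀ X, X ⊆ W → ∀ X', X' ⊆ W → (y X).2 v = (y X').2 v)
    {U P : Finset I} (hU : U ⊆ W) (hP : P ⊆ W) (hUP : Disjoint U P) (hj : j + 3 ≤ U.card)
    (b0 : G → V1) (w : I → V1)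
    (hb : ∀ X, X ⊆ W → IsRel S (chiC chi0 del X) (bC b0 w del X)) :
    ∑ T ∈ U.powerset, CTr S (chiC chi0 del (P ∪ T)) (y (P ∪ T)) (bC b0 w del (P ∪ T)) = 0 := by
  obtain ⟨hat, Q, hd, hQ⟩ := exists_rfamily hS hC.chi0_hom hC.del_hom hy hbad
  have hchi : ∀ X, S.HomG (chiC chi0 del X) := chiC_hom hS hC.chi0_hom hC.del_hom
  have hX : ∀ T ∈ U.powerset, P ∪ T ⊆ W := fun T hT =>
    Finset.union_subset hP ((Finset.mem_powerset.1 hT).trans hU)
  rw [Finset.sum_congr rfl fun T hT =>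
    CTr_of_rlift hS (hchi _) (hd _ (hX T hT)) (hb _ (hX T hT))]
  exact zero_sumR hS hC hst (fun X hX => (hd X hX).1) hQ hU hP hUP hj b0 w hb

/-- Rigid H6, first part: transport of the value to the last vertex. -/
theorem value_const_CTr [Fintype I] (hS : S.Ok) {pl : I → Bool → Pl} (hC : CubeOk S chi0 del pl)
    (hst : Star univ j (fun X => (y X).1)) (hy : ∀ X, IsPr S (chiC chi0 del X) j (y X))
    (hbad : ∀ v, v ∉ S.good → ∀ X X', (y X).2 v = (y X').2 v)
    (hj : j + 3 ≤ Fintype.card I) (b0 : G → V1) (w : I → V1)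
    (hb : ∀ X, IsRel S (chiC chi0 del X) (bC b0 w del X)) {f : ZMod 2}
    (hf : ∀ X, X ≠ univ → CTr S (chiC chi0 del X) (y X) (bC b0 w del X) = f) :
    CTr S (chiC chi0 del univ) (y univ) (bC b0 w del univ) = f := by
  have h := zero_sum_CTr hS hC hst (fun X _ => hy X) (fun v hv X _ X' _ => hbad v hv X X')
    (U := univ) (P := ∅)
    (Finset.Subset.refl _) (Finset.empty_subset _) (Finset.disjoint_empty_right _)
    (by rwa [Finset.card_univ]) b0 w (fun X _ => hb X)
  simp only [Finset.empty_union] at h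
  rw [← Finset.add_sum_erase _ _ (Finset.mem_powerset_self univ),
    Finset.sum_congr rfl (fun X hX => hf X (Finset.ne_of_mem_erase hX)), Finset.sum_const,
    Finset.card_erase_of_mem (Finset.mem_powerset_self _), Finset.card_powerset,
    Finset.card_univ] at h
  have hodd : (2 ^ Fintype.card I - 1) • f = f := by
    have h1 : 2 ^ Fintype.card I - 1 = 2 * (2 ^ (Fintype.card I - 1) - 1) + 1 := by
      have h2 : 2 ^ Fintype.card I = 2 * 2 ^ (Fintype.card I - 1) := by
        rw [← pow_succ']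
        congr 1
        omega
      have h3 : 1 ≤ 2 ^ (Fintype.card I - 1) := Nat.one_le_two_pow
      omega
    rw [h1, add_smul, one_smul, mul_smul, two_smul, CharTwo.add_self_eq_zero, zero_add]
  rw [hodd] at h
  exact CharTwo.add_eq_zero.1 h

/-- Z3: the zero sum theorem in dimension `j + 2` if the faces without the direction `ia` are
minimal and `b` varies only in the direction `ia`. -/
theorem z3_CTr [Fintype I] (hS : S.Ok) {pl : I → Bool → Pl} (hC : CubeOk S chi0 del pl)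
    (hst : Star univ j (fun X => (y X).1)) (hy : ∀ X, IsPr S (chiC chi0 del X) j (y X))
    (hbad : ∀ v, v ∉ S.good → ∀ X X', (y X).2 v = (y X').2 v)
    (hI : j + 2 ≤ Fintype.card I)
    (ia : I) (hm : ∀ U, ia ∉ U → ∀ P, Disjoint U P → ∀ a, j ≤ U.card + a →
      ∀ s, alt U (fun T => (2 : ℕ) ^ a • (y T).1 s) P = 0)
    (b0 : G → V1) (w : I → V1) (hw : ∀ i, i ≠ ia → w i = 0)
    (hb : ∀ X, IsRel S (chiC chi0 del X) (bC b0 w del X)) :
    ∑ X : Finset I, CTr S (chiC chi0 del X) (y X) (bC b0 w del X) = 0 := by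
  obtain ⟨hat, Q, hd, hQ⟩ := exists_rfamily (W := univ) hS hC.chi0_hom hC.del_hom
    (fun X _ => hy X) (fun v hv X _ X' _ => hbad v hv X X')
  have hchi : ∀ X, S.HomG (chiC chi0 del X) := chiC_hom hS hC.chi0_hom hC.del_hom
  rw [Finset.sum_congr rfl fun X _ =>
    CTr_of_rlift hS (hchi _) (hd X (Finset.subset_univ X)) (hb X)]
  exact z3R hS hC hst (fun X => (hd X (Finset.subset_univ X)).1)
    (fun v hv X X' => hQ v hv X (Finset.subset_univ X) X' (Finset.subset_univ X')) hI ia hm b0 w hw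
    hb

/-- Rigid H4: the top sum theorem. -/
theorem top_sum_CTr [Fintype I] (hS : S.Ok) {pl : I → Bool → Pl} (hC : CubeOk S chi0 del pl)
    (hst : Star univ j (fun X => (y X).1)) (hy : ∀ X, IsPr S (chiC chi0 del X) j (y X))
    (hbad : ∀ v, v ∉ S.good → ∀ X X', (y X).2 v = (y X').2 v)
    (hI : Fintype.card I = j + 2) (b0 : G → V1) (w : I → V1)
    (hb : ∀ X, IsRel S (chiC chi0 del X) (bC b0 w del X)) (ib : I)
    (hw : ∀ i, i ≠ ib → w i = 0) {Th : G → V1} (htf : S.TF Th)
    (hrel : ThRel S j del (fun X => (y X).1) (univ.erase ib) Th)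
    (hunr : ∀ v, v ≠ S.inf → Th (S.sg v) = 0) :
    ∑ X : Finset I, CTr S (chiC chi0 del X) (y X) (bC b0 w del X) =
      S.e (Th (S.phi (pl ib false)) + Th (S.phi (pl ib true))) (w ib) := by
  obtain ⟨hat, Q, hd, hQ⟩ := exists_rfamily (W := univ) hS hC.chi0_hom hC.del_hom
    (fun X _ => hy X) (fun v hv X _ X' _ => hbad v hv X X')
  have hchi : ∀ X, S.HomG (chiC chi0 del X) := chiC_hom hS hC.chi0_hom hC.del_hom
  rw [Finset.sum_congr rfl fun X _ =>
    CTr_of_rlift hS (hchi _) (hd X (Finset.subset_univ X)) (hb X)]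
  exact top_sumR hS hC hst (fun X => (hd X (Finset.subset_univ X)).1)
    (fun v hv X X' => hQ v hv X (Finset.subset_univ X) X' (Finset.subset_univ X')) hI b0 w hb ib hw
    htf hrel hunr

end

end Pool.Agent.SmH
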