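import Pool.Agent.Lib.SmH.Q.Main
import Pool.Agent.Lib.SmH.C.LeibE
import Pool.Agent.Lib.SmJ.H.Min

/-!
# HEIGHTS (MP_48b749_nt), block H_h1, module ZeroQ: the zero sum 3.1

The alternating sum of the height form over a cube of dimension `≥ i + 2` of rigid Selmer elements of
level `i` with `(*)_i` and constant local points at the bad places is zero.
-/

set_option autoImplicit false

open Finset

namespace Pool.Agent.SmH

open Pool.Agent.SmJ

section

variable {G V V1 Pl M I : Type*} [Group G] [AddCommGroup V] [DistribMulAction G V]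
  [AddCommGroup V1] [Module (ZMod 2) V1] [AddCommGroup M] [DistribMulAction G M]
  {S : Sys G V V1 Pl} {H : HData V M Pl} [DecidableEq I]
  {chi0 : G → ZMod 2} {del : I → G → ZMod 2}

omit [AddCommGroup V1] [Module (ZMod 2) V1] [Group G] [DistribMulAction G V] in
/-- (*) for values: `2 ^ a • A_U Psi = 0` if `i + 1 ≤ |U| + a`. -/
theorem star_pow {i : ℕ} {Psi : Finset I → G → V} [Fintype I] (hst : Star univ i Psi)
    {U P : Finset I} (hUP : Disjoint U P) {a : ℕ} (ha : i + 1 ≤ U.card + a) (s : G) :
    (2 : ℕ) ^ a • alt U (fun T => Psi T s) P = 0 := by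
  rw [← alt_nsmul]
  exact hst U P (Finset.subset_univ _) (Finset.subset_univ _) hUP a ha s

/-- 3.1: the alternating sum of the cup squares vanishes. -/
theorem alt_cup_zero (hS : S.Ok) (hH : HOk S H) [Fintype I] {i : ℕ}
    (hI : i + 2 ≤ Fintype.card I) {Psi : Finset I → G → V}
    (hlev : ∀ P s, (2 : ℕ) ^ i • Psi P s = 0) (hst : Star univ i Psi) (s t : G) :
    alt univ (fun P => H.e i (Psi P s) (tw (chiC chi0 del P) s (Psi P t))) ∅ = 0 := by
  refine alt_cupE_eq_zero hH.weil chi0 del s (fun P => Psi P s) (fun P => Psi P t) univ ∅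
    (Finset.disjoint_empty_right _) (fun T _ => hlev _ s) (fun T _ => hlev _ t) ?_
  intro W T _ hT
  set W' : Finset I := (univ \ W) \ T with hW'
  have hc1 : (univ \ W).card = Fintype.card I - W.card := by
    rw [Finset.card_sdiff_of_subset (Finset.subset_univ W), Finset.card_univ]
  have hc2 : W'.card = (univ \ W).card - T.card := Finset.card_sdiff_of_subset hT
  have hWc : W.card ≤ Fintype.card I := Finset.card_le_univ W
  have hTc : T.card ≤ (univ \ W).card := Finset.card_le_card hT
  refine ⟨if W.card = 0 then i else i + 1 - W.card,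
    if W'.card = 0 then i - T.card else i + 1 - W'.card - T.card, ?_, ?_, ?_⟩
  · split_ifs <;> omega
  · split_ifs with h0
    · rw [Finset.card_eq_zero.1 h0, alt_empty]
      exact hlev _ s
    · apply star_pow hst ?_ (by omega) s
      rw [Finset.empty_union]
      exact Finset.disjoint_sdiff
  · rw [← mul_smul, ← pow_add]
    have hd : Disjoint W' (∅ ∪ T) := by
      rw [Finset.empty_union]
      exact Finset.sdiff_disjoint
    split_ifs with h0
    · rw [Finset.card_eq_zero.1 h0, alt_empty]
      exact pow_smul_of_le (by omega) (hlev _ t)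
    · exact star_pow hst hd (by omega) t

/-- 3.1: the zero sum for the height form. -/
theorem zero_q [Fintype I] (hS : S.Ok) (hH : HOk S H) {pl : I → Bool → Pl}
    (hC : CubeOk S chi0 del pl) {i : ℕ} (hi : 1 ≤ i) (hI : i + 2 ≤ Fintype.card I)
    {y : Finset I → (G → V) × (Pl → V)} (hy : ∀ P, IsPr S (chiC chi0 del P) i (y P))
    (hst : Star univ i (fun P => (y P).1))
    (hbad : ∀ v, v ∉ S.good → ∀ P P', (y P).2 v = (y P').2 v) :
    alt univ (fun P => q S H (chiC chi0 del P) i (y P)) ∅ = 0 := by
  have hhom : ∀ P : Finset I, S.HomG (chiC chi0 del P) := fun P =>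
    chiC_hom hS hC.chi0_hom hC.del_hom P
  have h1 := q_comb hS hH (univ : Finset I).powerset (fun T => (-1 : ℤ) ^ T.card)
    (ch := fun T => chiC chi0 del (∅ ∪ T)) (l := fun _ => i) (y := fun T => y (∅ ∪ T))
    (fun T _ => hhom _) (fun T _ => hy _) (g := fun _ => 0) (Sys.TF_const hS 0) (fun a b => by
      have := alt_cup_zero (chi0 := chi0) (del := del) hS hH hI
        (fun P s => (hy P).sel.lev s) hst a b
      rw [smul_zero, add_zero, sub_zero]
      exact this)
  unfold alt
  rw [h1]
  refine (finsum_congr (g := fun _ => (0 : M)) fun v => ?_).trans finsum_zero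
  have h2 : ∑ T ∈ (univ : Finset I).powerset, (-1 : ℤ) ^ T.card •
      bt H.e (chiC chi0 del (∅ ∪ T)) i (S.sg v) ((y (∅ ∪ T)).2 v) ((y (∅ ∪ T)).2 v) = 0 := by
    change alt univ (fun T => bt H.e (chiC chi0 del T) i (S.sg v) ((y T).2 v) ((y T).2 v)) ∅ = 0
    by_cases hv : v ∈ S.good
    · have h3 : ∀ T : Finset I, bt H.e (chiC chi0 del T) i (S.sg v) ((y T).2 v) ((y T).2 v) =
          0 := fun T => by
        rw [(hy T).off v hv]
        exact bt_zero_left hS hH.weil (hH.sgM v) (by rw [dl_zero, smul_zero])
      simp only [h3]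
      exact alt_zero _ _
    · have hne : ∀ l e, v ≠ pl l e := fun l e h => hv (h ▸ hC.good l e)
      rcases hC.other v hne with h4 | h4
      · have h5 : ∀ T : Finset I, bt H.e (chiC chi0 del T) i (S.sg v) ((y T).2 v) ((y T).2 v) =
            bt H.e chi0 i (S.sg v) ((y ∅).2 v) ((y ∅).2 v) := fun T => by
          rw [hbad v hv T ∅]
          apply bt_congr_chi
          unfold chiC
          rw [Finset.sum_eq_zero fun l _ => h4 l _ (hS.sg_mem v), add_zero]
        simp only [h5]
        exact alt_const (Finset.univ_nonempty_iff.2 (Fintype.card_pos_iff.1 (by omega))) _ _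
      · exact absurd h4.1 hv
  rw [h2, sub_zero, map_zero, smul_zero]

end

end Pool.Agent.SmH
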